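import Pool.Agent.H707R2.Mahler.OneD

/-!
# Fubini along a unit direction
-/

set_option autoImplicit false
set_option linter.unusedSectionVars false

noncomputable section

namespace Pool.Agent.H707R2.Mahler

open MeasureTheory Set Filter Topology
open scoped RealInnerProductSpace

variable {V : Type*} [NormedAddCommGroup V] [InnerProductSpace ℝ V]

/-- the hyperplane orthogonal to `n` -/
abbrev Hyp (n : V) : Submodule ℝ V := (ℝ ∙ n)ᗮ

lemma mem_hyp {n x : V} : x ∈ Hyp n ↔ ⟪n, x⟫ = 0 :=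
  Submodule.mem_orthogonal_singleton_iff_inner_right

lemma hyp_inner {n : V} (h : Hyp n) : ⟪n, (h : V)⟫ = 0 := mem_hyp.1 h.2

lemma norm_sq_split {n : V} (hn : ‖n‖ = 1) (s : ℝ) (h : Hyp n) :
    ‖s • n + (h : V)‖ ^ 2 = s ^ 2 + ‖(h : V)‖ ^ 2 := by
  rw [← real_inner_self_eq_norm_sq, inner_add_left, inner_add_right, inner_add_right,
    real_inner_smul_left, real_inner_smul_right, real_inner_smul_left, real_inner_smul_right,
    hyp_inner, real_inner_comm n (h : V), hyp_inner, real_inner_self_eq_norm_sq, hn,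
    real_inner_self_eq_norm_sq]
  ring

lemma abs_le_norm_split {n : V} (hn : ‖n‖ = 1) (s : ℝ) (h : Hyp n) :
    |s| ≤ ‖s • n + (h : V)‖ := by
  apply abs_le_of_sq_le_sq _ (norm_nonneg _)
  rw [norm_sq_split hn]
  nlinarith [sq_nonneg ‖(h : V)‖]

lemma norm_le_norm_split {n : V} (hn : ‖n‖ = 1) (s : ℝ) (h : Hyp n) :
    ‖(h : V)‖ ≤ ‖s • n + (h : V)‖ := by
  rw [← sq_le_sq₀ (norm_nonneg _) (norm_nonneg _), norm_sq_split hn]
  nlinarith [sq_nonneg s]

/-- orthogonal decomposition along a unit vector -/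
def splitLI (n : V) (hn : ‖n‖ = 1) : WithLp 2 (ℝ × Hyp n) ≃ₗᵢ[ℝ] V where
  toFun p := (WithLp.ofLp p).1 • n + ((WithLp.ofLp p).2 : V)
  map_add' p q := by simp [add_smul]; abel
  map_smul' c p := by simp [smul_smul]
  invFun x := WithLp.toLp 2 (⟪n, x⟫, ⟨x - ⟪n, x⟫ • n, by
    rw [mem_hyp, inner_sub_right, real_inner_smul_right, real_inner_self_eq_norm_sq, hn]; ring⟩)
  left_inv p := by
    have h1 : ⟪n, (WithLp.ofLp p).1 • n + ((WithLp.ofLp p).2 : V)⟫ = (WithLp.ofLp p).1 := by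
      rw [inner_add_right, real_inner_smul_right, real_inner_self_eq_norm_sq, hn, hyp_inner]; ring
    apply (WithLp.linearEquiv 2 ℝ (ℝ × Hyp n)).injective
    refine Prod.ext h1 (Subtype.ext ?_)
    change (WithLp.ofLp p).1 • n + ((WithLp.ofLp p).2 : V) -
      ⟪n, (WithLp.ofLp p).1 • n + ((WithLp.ofLp p).2 : V)⟫ • n = _
    rw [h1]
    simp
  right_inv x := by
    change ⟪n, x⟫ • n + (x - ⟪n, x⟫ • n) = x
    abel
  norm_map' p := by
    change ‖(WithLp.ofLp p).1 • n + ((WithLp.ofLp p).2 : V)‖ = ‖p‖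
    rw [← sq_eq_sq₀ (norm_nonneg _) (norm_nonneg _), norm_sq_split hn,
      WithLp.prod_norm_sq_eq_of_L2]
    simp

variable [FiniteDimensional ℝ V] [MeasurableSpace V] [BorelSpace V]

/-- `(s, h) ↦ s n + h` -/
def splitMap (n : V) : ℝ × Hyp n → V := fun p => p.1 • n + (p.2 : V)

lemma splitMap_mp (n : V) (hn : ‖n‖ = 1) :
    MeasurePreserving (splitMap n) (volume.prod volume) volume :=
  (splitLI n hn).measurePreserving.comp (WithLp.volume_preserving_toLp ℝ (Hyp n))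

lemma splitMap_me (n : V) (hn : ‖n‖ = 1) : MeasurableEmbedding (splitMap n) := by
  have h1 : MeasurableEmbedding (splitLI n hn) := (splitLI n hn).toHomeomorph.measurableEmbedding
  have h2 : MeasurableEmbedding (@WithLp.toLp 2 (ℝ × Hyp n)) :=
    (WithLp.homeomorphProd 2 ℝ (Hyp n)).symm.measurableEmbedding
  exact h1.comp h2

lemma integral_split (n : V) (hn : ‖n‖ = 1) (F : V → ℝ) (hF : Integrable F) :
    ∫ x, F x = ∫ h : Hyp n, ∫ s : ℝ, F (s • n + (h : V)) := by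
  have h1 := (splitMap_mp n hn).integral_comp (splitMap_me n hn) F
  have h2 : Integrable (fun p => F (splitMap n p)) (volume.prod volume) :=
    ((splitMap_mp n hn).integrable_comp_emb (splitMap_me n hn)).2 hF
  rw [← h1, integral_prod_symm _ h2]
  rfl

lemma integrable_split (n : V) (hn : ‖n‖ = 1) (F : V → ℝ) (hF : Integrable F) :
    Integrable (fun h : Hyp n => ∫ s : ℝ, F (s • n + (h : V))) := by
  have h2 : Integrable (fun p => F (splitMap n p)) (volume.prod volume) :=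
    ((splitMap_mp n hn).integrable_comp_emb (splitMap_me n hn)).2 hF
  exact h2.integral_prod_right

lemma ae_split (n : V) (hn : ‖n‖ = 1) {P : V → Prop} (hP : ∀ᵐ x : V, P x) :
    ∀ᵐ h : Hyp n, ∀ᵐ s : ℝ, P (s • n + (h : V)) := by
  have h1 : ∀ᵐ p ∂((volume : Measure ℝ).prod (volume : Measure (Hyp n))), P (splitMap n p) :=
    (splitMap_mp n hn).quasiMeasurePreserving.ae hP
  have h2 := Measure.ae_ae_of_ae_prod h1
  have h3 : ∀ᵐ p ∂((volume : Measure (Hyp n)).prod (volume : Measure ℝ)), P (splitMap n p.swap) := by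
    have := (Measure.measurePreserving_swap (μ := (volume : Measure (Hyp n)))
      (ν := (volume : Measure ℝ))).quasiMeasurePreserving.ae h1
    exact this
  exact Measure.ae_ae_of_ae_prod h3

/-! ### integrability of `e^{-ψ}` -/

lemma integrable_exp_norm {c : ℝ} (hc : 0 < c) :
    Integrable (fun x : V => Real.exp (-(c * ‖x‖))) := by
  set d := Module.finrank ℝ V
  have h := integrable_one_add_norm (E := V) (μ := volume) (r := (d + 1 : ℕ))
    (by push_cast; linarith)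
  set M : ℝ := max 1 ((d + 1 : ℕ) / c)
  have hM : 0 < M := lt_of_lt_of_le one_pos (le_max_left _ _)
  refine (h.const_mul (M ^ (d + 1))).mono' ?_ ?_
  · exact (by fun_prop : Continuous fun x : V => Real.exp (-(c * ‖x‖))).aestronglyMeasurable
  · filter_upwards with x
    rw [Real.norm_of_nonneg (Real.exp_nonneg _), Real.rpow_neg (by positivity), Real.rpow_natCast]
    have hx := norm_nonneg x
    have h1 : (1 + ‖x‖) ^ (d + 1) ≤ M ^ (d + 1) * Real.exp (c * ‖x‖) := by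
      have h2 : 1 + ‖x‖ ≤ M * Real.exp (c * ‖x‖ / (d + 1 : ℕ)) := by
        have h3 := Real.add_one_le_exp (c * ‖x‖ / (d + 1 : ℕ))
        have h4 : 1 ≤ M := le_max_left _ _
        have h5 : ((d + 1 : ℕ) : ℝ) / c ≤ M := le_max_right _ _
        have h6 : ‖x‖ ≤ M * (c * ‖x‖ / (d + 1 : ℕ)) := by
          have hd : (0 : ℝ) < (d + 1 : ℕ) := by positivity
          calc ‖x‖ = ((d + 1 : ℕ) : ℝ) / c * (c * ‖x‖ / (d + 1 : ℕ)) := by field_simp
            _ ≤ M * (c * ‖x‖ / (d + 1 : ℕ)) := by gcongr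
        calc 1 + ‖x‖ ≤ M + M * (c * ‖x‖ / (d + 1 : ℕ)) := by linarith
          _ = M * (c * ‖x‖ / (d + 1 : ℕ) + 1) := by ring
          _ ≤ M * Real.exp (c * ‖x‖ / (d + 1 : ℕ)) := by gcongr
      calc (1 + ‖x‖) ^ (d + 1) ≤ (M * Real.exp (c * ‖x‖ / (d + 1 : ℕ))) ^ (d + 1) := by gcongr
        _ = M ^ (d + 1) * Real.exp (c * ‖x‖) := by
          rw [mul_pow, ← Real.exp_nat_mul]
          congr 2
          field_simp
    rw [Real.exp_neg, ← div_eq_mul_inv, le_div_iff₀ (by positivity), inv_mul_le_iff₀ (Real.exp_pos _),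
      mul_comm]
    exact h1

variable {ψ : V → ℝ}

lemma Coer.integrable (hψ : Coer ψ) : Integrable (fun x => Real.exp (-ψ x)) := by
  obtain ⟨c, C, hc, hlow⟩ := hψ.low
  obtain ⟨L, hL⟩ := hψ.lip
  refine ((integrable_exp_norm hc).const_mul (Real.exp C)).mono' ?_ ?_
  · have := hL.continuous
    exact (by fun_prop : Continuous fun s => Real.exp (-ψ s)).aestronglyMeasurable
  · filter_upwards with x
    rw [Real.norm_of_nonneg (Real.exp_nonneg _), ← Real.exp_add]
    apply Real.exp_le_exp.2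
    have := hlow x
    linarith

lemma Coer.integrable_fderiv (hψ : Coer ψ) (v : V) :
    Integrable (fun x => fderiv ℝ ψ x v * Real.exp (-ψ x)) := by
  obtain ⟨L, hL⟩ := hψ.lip
  refine (hψ.integrable.const_mul (L * ‖v‖)).mono' ?_ ?_
  · exact (measurable_fderiv_apply_const ℝ ψ v).aestronglyMeasurable.mul
      hψ.integrable.aestronglyMeasurable
  · filter_upwards with x
    rw [norm_mul, Real.norm_of_nonneg (Real.exp_nonneg _)]
    gcongr
    calc ‖fderiv ℝ ψ x v‖ ≤ ‖fderiv ℝ ψ x‖ * ‖v‖ := ContinuousLinearMap.le_opNorm _ _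
      _ ≤ L * ‖v‖ := by
        gcongr
        exact norm_fderiv_le_of_lipschitz ℝ hL

lemma Coer.ae_differentiable (hψ : Coer ψ) : ∀ᵐ x : V, DifferentiableAt ℝ ψ x := by
  obtain ⟨L, hL⟩ := hψ.lip
  exact hL.ae_differentiableAt

lemma Coer.line (hψ : Coer ψ) {n : V} (hn : ‖n‖ = 1) (h : Hyp n) :
    Coer (fun s : ℝ => ψ (s • n + (h : V))) := by
  obtain ⟨L, hL⟩ := hψ.lip
  obtain ⟨c, C, hc, hlow⟩ := hψ.low
  refine ⟨⟨L, LipschitzWith.of_dist_le_mul fun s t => ?_⟩, c, C, hc, fun s => ?_⟩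
  · refine (hL.dist_le_mul _ _).trans ?_
    rw [dist_add_right, dist_eq_norm, ← sub_smul, norm_smul, hn, mul_one, ← dist_eq_norm]
  · have h1 := abs_le_norm_split hn s h
    have h2 := hlow (s • n + (h : V))
    rw [Real.norm_eq_abs]
    nlinarith

lemma Coer.deriv_line (hψ : Coer ψ) {n : V} (hn : ‖n‖ = 1) :
    ∀ᵐ h : Hyp n, ∀ᵐ s : ℝ, deriv (fun s : ℝ => ψ (s • n + (h : V))) s =
      fderiv ℝ ψ (s • n + (h : V)) n := by
  filter_upwards [ae_split n hn hψ.ae_differentiable] with h hh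
  filter_upwards [hh] with s hs
  have h1 : HasDerivAt (fun s : ℝ => s • n + (h : V)) n s := by
    have := ((hasDerivAt_id s).smul_const n).add_const (h : V)
    simpa using this
  exact (hs.hasFDerivAt.comp_hasDerivAt s h1).deriv

/-- the basic formula -/
theorem Coer.integral_line (hψ : Coer ψ) {n : V} (hn : ‖n‖ = 1) {g : V → ℝ} (hg : Measurable g)
    {C : ℝ} (hC : ∀ x, |g x| ≤ C) :
    ∫ x, g x * (fderiv ℝ ψ x n * Real.exp (-ψ x)) =
      ∫ h : Hyp n, ∫ s : ℝ, g (s • n + (h : V)) *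
        (deriv (fun s : ℝ => ψ (s • n + (h : V))) s * Real.exp (-ψ (s • n + (h : V)))) := by
  rw [integral_split n hn _ (integrable_bdd_mul (hψ.integrable_fderiv n) hg.aestronglyMeasurable C hC)]
  apply integral_congr_ae
  filter_upwards [hψ.deriv_line hn] with h hh
  apply integral_congr_ae
  filter_upwards [hh] with s hs
  rw [hs]

/-- if `χ` is constant along `u` then `∫ χ ∂_u ψ e^{-ψ} = 0` -/
theorem Coer.integral_zero_dir (hψ : Coer ψ) (u : V) {χ : V → ℝ} (hχ : Measurable χ)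
    {C : ℝ} (hC : ∀ x, |χ x| ≤ C) (hinv : ∀ x, ∀ s : ℝ, χ (x + s • u) = χ x) :
    ∫ x, χ x * (fderiv ℝ ψ x u * Real.exp (-ψ x)) = 0 := by
  rcases eq_or_ne u 0 with rfl | hu
  · simp
  have hu' : 0 < ‖u‖ := norm_pos_iff.2 hu
  set n : V := ‖u‖⁻¹ • u with hn_def
  have hn : ‖n‖ = 1 := by
    rw [hn_def, norm_smul, norm_inv, norm_norm, inv_mul_cancel₀ hu'.ne']
  have hun : u = ‖u‖ • n := by rw [hn_def, smul_smul, mul_inv_cancel₀ hu'.ne', one_smul]
  have h1 : ∀ x, χ x * (fderiv ℝ ψ x u * Real.exp (-ψ x)) =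
      ‖u‖ * (χ x * (fderiv ℝ ψ x n * Real.exp (-ψ x))) := by
    intro x
    conv_lhs => rw [hun, map_smul, smul_eq_mul]
    ring
  simp_rw [h1]
  rw [integral_const_mul, hψ.integral_line hn hχ hC]
  have h2 : ∀ h : Hyp n, ∫ s : ℝ, χ (s • n + (h : V)) *
        (deriv (fun s : ℝ => ψ (s • n + (h : V))) s * Real.exp (-ψ (s • n + (h : V)))) = 0 := by
    intro h
    have h3 : ∀ s : ℝ, χ (s • n + (h : V)) = χ (h : V) := by
      intro s
      have h4 := hinv (h : V) (s * ‖u‖⁻¹)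
      have h5 : s • n + (h : V) = (h : V) + (s * ‖u‖⁻¹) • u := by
        rw [add_comm, mul_smul]
      rw [h5, h4]
    simp_rw [h3]
    rw [integral_const_mul, (hψ.line hn h).integral_zero, mul_zero]
  simp_rw [h2]
  simp

/-- if `χ` is constant along `n` then `∫ χ sgn⟨x,n⟩ ∂_n ψ e^{-ψ} = 2 ∫_{n^⊥} χ e^{-ψ}` -/
theorem Coer.integral_sign_dir (hψ : Coer ψ) {n : V} (hn : ‖n‖ = 1) {χ : V → ℝ} (hχ : Measurable χ)
    {C : ℝ} (hC : ∀ x, |χ x| ≤ C) (hinv : ∀ x, ∀ s : ℝ, χ (x + s • n) = χ x) :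
    ∫ x, χ x * sg ⟪n, x⟫ * (fderiv ℝ ψ x n * Real.exp (-ψ x)) =
      2 * ∫ h : Hyp n, χ (h : V) * Real.exp (-ψ (h : V)) := by
  have hm : Measurable fun x => χ x * sg ⟪n, x⟫ :=
    hχ.mul (measurable_sg.comp (by fun_prop))
  have hb : ∀ x, |χ x * sg ⟪n, x⟫| ≤ C := fun x => by
    rw [abs_mul, abs_sg, mul_one]; exact hC x
  rw [hψ.integral_line hn hm hb, ← integral_const_mul]
  congr 1
  ext h
  have h3 : ∀ s : ℝ, χ (s • n + (h : V)) = χ (h : V) := by
    intro s
    rw [add_comm, hinv]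
  have h4 : ∀ s : ℝ, ⟪n, s • n + (h : V)⟫ = s := by
    intro s
    rw [inner_add_right, real_inner_smul_right, real_inner_self_eq_norm_sq, hn, hyp_inner]
    ring
  simp_rw [h3, h4, mul_assoc]
  rw [integral_const_mul, (hψ.line hn h).integral_sign]
  simp
  ring

/-- lower bound for `∫ |∂_n ψ| e^{-ψ}` -/
theorem Coer.abs_dir_ge (hψ : Coer ψ) {n : V} (hn : ‖n‖ = 1) {ρ : Hyp n → ℝ} (hρ : Coer ρ)
    (h : ∀ h : Hyp n, ∃ s : ℝ, ψ (s • n + (h : V)) ≤ ρ h) :
    2 * ∫ h : Hyp n, Real.exp (-ρ h) ≤ ∫ x, |fderiv ℝ ψ x n| * Real.exp (-ψ x) := by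
  have hI : Integrable fun x => |fderiv ℝ ψ x n| * Real.exp (-ψ x) := by
    refine (hψ.integrable_fderiv n).norm.congr (Filter.Eventually.of_forall fun x => ?_)
    simp only [norm_mul, Real.norm_eq_abs, abs_of_pos (Real.exp_pos _)]
  rw [integral_split n hn _ hI, ← integral_const_mul]
  refine integral_mono_ae (hρ.integrable.const_mul 2) (integrable_split n hn _ hI) ?_
  filter_upwards [hψ.deriv_line hn] with y hy
  obtain ⟨s, hs⟩ := h y
  have h1 := (hψ.line hn y).two_exp_le s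
  have h2 : ∫ s : ℝ, |deriv (fun s : ℝ => ψ (s • n + (y : V))) s| * Real.exp (-ψ (s • n + (y : V))) =
      ∫ s : ℝ, |fderiv ℝ ψ (s • n + (y : V)) n| * Real.exp (-ψ (s • n + (y : V))) := by
    apply integral_congr_ae
    filter_upwards [hy] with s hs
    rw [hs]
  rw [h2] at h1
  refine le_trans ?_ h1
  have h3 : Real.exp (-ρ y) ≤ Real.exp (-ψ (s • n + (y : V))) := Real.exp_le_exp.2 (by linarith)
  change 2 * Real.exp (-ρ y) ≤ _
  linarith

end Pool.Agent.H707R2.Mahler
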