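import Mathlib

/-!
# One-dimensional integrals of `f' e^{-f}`
-/

set_option autoImplicit false

noncomputable section

namespace Pool.Agent.H707R2.Mahler

open MeasureTheory Set Filter Topology

/-- Lipschitz functions which tend to infinity linearly -/
structure Coer {E : Type*} [NormedAddCommGroup E] (f : E → ℝ) : Prop where
  lip : ∃ L : NNReal, LipschitzWith L f
  low : ∃ c C : ℝ, 0 < c ∧ ∀ x, c * ‖x‖ - C ≤ f x

variable {f : ℝ → ℝ}

lemma Coer.locLip (hf : Coer f) (a b : ℝ) :
    AbsolutelyContinuousOnInterval (fun s => Real.exp (-f s)) a b := by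
  obtain ⟨L, hL⟩ := hf.lip
  obtain ⟨c, C, hc, hlow⟩ := hf.low
  -- the exponential is Lipschitz on the half line `t ≤ C`
  have hbound : ∀ s, -f s ≤ C := fun s => by
    have := hlow s
    have h2 : 0 ≤ c * ‖s‖ := by positivity
    linarith
  have hexp : ∀ x y : ℝ, x ≤ C → y ≤ C → |Real.exp x - Real.exp y| ≤ Real.exp C * |x - y| := by
    intro x y hx hy
    have hconv : Convex ℝ (Iic C) := convex_Iic C
    have h := hconv.norm_image_sub_le_of_norm_deriv_le (f := Real.exp) (C := Real.exp C)
      (fun z _ => Real.differentiableAt_exp) (fun z hz => by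
        rw [Real.deriv_exp, Real.norm_of_nonneg (Real.exp_nonneg _)]
        exact Real.exp_le_exp.2 hz) (show y ∈ Iic C from hy) (show x ∈ Iic C from hx)
    simpa [Real.norm_eq_abs] using h
  have hlip : LipschitzWith (Real.toNNReal (Real.exp C) * L) (fun s => Real.exp (-f s)) := by
    refine LipschitzWith.of_dist_le_mul fun x y => ?_
    rw [Real.dist_eq]
    have h1 := hexp (-f x) (-f y) (hbound x) (hbound y)
    have h2 := hL.dist_le_mul x y
    rw [Real.dist_eq] at h2
    have h3 : |-f x - -f y| = |f x - f y| := by rw [← abs_neg]; ring_nf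
    rw [h3] at h1
    calc |Real.exp (-f x) - Real.exp (-f y)| ≤ Real.exp C * |f x - f y| := h1
      _ ≤ Real.exp C * (L * dist x y) := by gcongr
      _ = (Real.toNNReal (Real.exp C) * L : NNReal) * dist x y := by
        rw [NNReal.coe_mul, Real.coe_toNNReal _ (Real.exp_nonneg _)]; ring
  exact (hlip.lipschitzOnWith (s := uIcc a b)).absolutelyContinuousOnInterval

lemma Coer.ae_diff (hf : Coer f) : ∀ᵐ s : ℝ, DifferentiableAt ℝ f s := by
  obtain ⟨L, hL⟩ := hf.lip
  exact hL.ae_differentiableAt

lemma Coer.deriv_exp (hf : Coer f) :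
    (fun s => deriv (fun s => Real.exp (-f s)) s) =ᵐ[volume]
      fun s => -(deriv f s * Real.exp (-f s)) := by
  filter_upwards [hf.ae_diff] with s hs
  have h : HasDerivAt (fun s => Real.exp (-f s)) (Real.exp (-f s) * -deriv f s) s :=
    (hs.hasDerivAt.neg).exp
  rw [h.deriv]
  ring

lemma Coer.tendsto_top (hf : Coer f) : Tendsto (fun s => Real.exp (-f s)) atTop (𝓝 0) := by
  obtain ⟨c, C, hc, hlow⟩ := hf.low
  apply Real.tendsto_exp_neg_atTop_nhds_zero.comp
  refine tendsto_atTop_mono (fun s => (?_ : c * s - C ≤ f s)) ?_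
  · have := hlow s
    have h2 : s ≤ ‖s‖ := le_abs_self s
    nlinarith
  · exact tendsto_atTop_add_const_right _ _ (tendsto_id.const_mul_atTop hc)

lemma Coer.comp_neg (hf : Coer f) : Coer (fun s => f (-s)) := by
  obtain ⟨L, hL⟩ := hf.lip
  obtain ⟨c, C, hc, hlow⟩ := hf.low
  refine ⟨⟨L, ?_⟩, c, C, hc, fun x => by simpa using hlow (-x)⟩
  refine LipschitzWith.of_dist_le_mul fun x y => ?_
  have := hL.dist_le_mul (-x) (-y)
  simpa [dist_neg_neg] using this

lemma integrable_exp_abs {c : ℝ} (hc : 0 < c) : Integrable (fun s : ℝ => Real.exp (-(c * |s|))) := by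
  have h1 : IntegrableOn (fun s : ℝ => Real.exp (-(c * |s|))) (Ioi 0) := by
    refine (integrableOn_exp_mul_Ioi (show -c < 0 by linarith) 0).congr_fun (fun s hs => ?_)
      measurableSet_Ioi
    change Real.exp (-c * s) = Real.exp (-(c * |s|))
    rw [abs_of_pos hs, neg_mul]
  have h2 : IntegrableOn (fun s : ℝ => Real.exp (-(c * |s|))) (Iic 0) := by
    refine (integrableOn_exp_mul_Iic hc 0).congr_fun (fun s hs => ?_) measurableSet_Iic
    change Real.exp (c * s) = Real.exp (-(c * |s|))
    rw [abs_of_nonpos hs, mul_neg, neg_neg]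
  rw [← integrableOn_univ, ← Iic_union_Ioi (a := (0:ℝ))]
  exact h2.union h1

lemma Coer.integrable_exp (hf : Coer f) : Integrable (fun s => Real.exp (-f s)) := by
  obtain ⟨c, C, hc, hlow⟩ := hf.low
  obtain ⟨L, hL⟩ := hf.lip
  have h := (integrable_exp_abs hc).const_mul (Real.exp C)
  refine h.mono' (by
    have := hL.continuous
    exact (by fun_prop : Continuous fun s => Real.exp (-f s)).aestronglyMeasurable) ?_
  filter_upwards with s
  rw [Real.norm_of_nonneg (Real.exp_nonneg _), ← Real.exp_add]
  apply Real.exp_le_exp.2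
  have := hlow s
  rw [Real.norm_eq_abs] at this
  linarith

lemma Coer.integrable_deriv (hf : Coer f) :
    Integrable (fun s => deriv f s * Real.exp (-f s)) := by
  obtain ⟨L, hL⟩ := hf.lip
  refine (hf.integrable_exp.const_mul (L : ℝ)).mono' ?_ ?_
  · exact ((measurable_deriv f).aestronglyMeasurable).mul hf.integrable_exp.aestronglyMeasurable
  · filter_upwards with s
    rw [norm_mul, Real.norm_of_nonneg (Real.exp_nonneg _)]
    gcongr
    exact norm_deriv_le_of_lipschitz hL

lemma Coer.integral_Ioi (hf : Coer f) (s0 : ℝ) :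
    ∫ s in Ioi s0, deriv f s * Real.exp (-f s) = Real.exp (-f s0) := by
  have h1 : Tendsto (fun b => ∫ s in s0..b, deriv f s * Real.exp (-f s)) atTop
      (𝓝 (∫ s in Ioi s0, deriv f s * Real.exp (-f s))) :=
    intervalIntegral_tendsto_integral_Ioi s0 hf.integrable_deriv.integrableOn tendsto_id
  have h2 : ∀ b, ∫ s in s0..b, deriv f s * Real.exp (-f s) = Real.exp (-f s0) - Real.exp (-f b) := by
    intro b
    have h3 := (hf.locLip s0 b).integral_deriv_eq_sub
    have h4 : ∫ s in s0..b, deriv (fun s => Real.exp (-f s)) s =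
        ∫ s in s0..b, -(deriv f s * Real.exp (-f s)) :=
      intervalIntegral.integral_congr_ae (by
        filter_upwards [hf.deriv_exp] with s hs _ using hs)
    rw [h4, intervalIntegral.integral_neg] at h3
    linarith
  simp_rw [h2] at h1
  have h5 : Tendsto (fun b => Real.exp (-f s0) - Real.exp (-f b)) atTop (𝓝 (Real.exp (-f s0) - 0)) :=
    tendsto_const_nhds.sub hf.tendsto_top
  rw [sub_zero] at h5
  exact tendsto_nhds_unique h1 h5

lemma Coer.integral_Iic (hf : Coer f) (s0 : ℝ) :
    ∫ s in Iic s0, deriv f s * Real.exp (-f s) = -Real.exp (-f s0) := by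
  have h := hf.comp_neg.integral_Ioi (-s0)
  rw [neg_neg] at h
  have h2 : ∀ s, deriv (fun s => f (-s)) s = -deriv f (-s) := fun s => by
    rw [deriv_comp_neg]
  simp_rw [h2] at h
  have h3 := integral_comp_neg_Ioi (-s0) (fun s => -(deriv f s * Real.exp (-f s)))
  rw [neg_neg] at h3
  have h4 : ∫ s in Ioi (-s0), -deriv f (-s) * Real.exp (-f (-s)) =
      ∫ s in Ioi (-s0), -(deriv f (-s) * Real.exp (-f (-s))) := by
    congr 1
    ext s
    ring
  rw [h4, h3, integral_neg] at h
  linarith

/-- total variation type lower bound -/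
lemma Coer.two_exp_le (hf : Coer f) (s0 : ℝ) :
    2 * Real.exp (-f s0) ≤ ∫ s, |deriv f s| * Real.exp (-f s) := by
  have hI := hf.integrable_deriv
  have habs : Integrable (fun s => |deriv f s| * Real.exp (-f s)) := by
    have := hI.norm
    refine this.congr (Filter.Eventually.of_forall fun s => ?_)
    simp only [norm_mul, Real.norm_eq_abs, abs_of_pos (Real.exp_pos _)]
  have h1 : ∫ s, |deriv f s| * Real.exp (-f s) =
      (∫ s in Iic s0, |deriv f s| * Real.exp (-f s)) + ∫ s in Ioi s0, |deriv f s| * Real.exp (-f s) :=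
    (intervalIntegral.integral_Iic_add_Ioi habs.integrableOn habs.integrableOn).symm
  have h2 : Real.exp (-f s0) ≤ ∫ s in Ioi s0, |deriv f s| * Real.exp (-f s) := by
    rw [← hf.integral_Ioi s0]
    refine integral_mono hI.integrableOn habs.integrableOn fun s => ?_
    have := le_abs_self (deriv f s)
    exact mul_le_mul_of_nonneg_right this (Real.exp_nonneg _)
  have h3 : Real.exp (-f s0) ≤ ∫ s in Iic s0, |deriv f s| * Real.exp (-f s) := by
    have := hf.integral_Iic s0
    have h4 : -∫ s in Iic s0, deriv f s * Real.exp (-f s) ≤ ∫ s in Iic s0, |deriv f s| * Real.exp (-f s) := by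
      rw [← integral_neg]
      refine integral_mono hI.neg.integrableOn habs.integrableOn fun s => ?_
      have := neg_abs_le (deriv f s)
      have h5 : -(deriv f s) ≤ |deriv f s| := by linarith
      calc -(deriv f s * Real.exp (-f s)) = (-(deriv f s)) * Real.exp (-f s) := by ring
        _ ≤ |deriv f s| * Real.exp (-f s) := mul_le_mul_of_nonneg_right h5 (Real.exp_nonneg _)
    rw [this, neg_neg] at h4
    exact h4
  rw [h1]
  linarith

/-- the integral over the line vanishes -/
lemma Coer.integral_zero (hf : Coer f) : ∫ s, deriv f s * Real.exp (-f s) = 0 := by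
  rw [← intervalIntegral.integral_Iic_add_Ioi (b := (0:ℝ)) hf.integrable_deriv.integrableOn
    hf.integrable_deriv.integrableOn, hf.integral_Iic, hf.integral_Ioi]
  ring

/-- the sign, with value `1` at `0` -/
def sg (s : ℝ) : ℝ := if 0 ≤ s then 1 else -1

lemma sg_cases (s : ℝ) : sg s = 1 ∨ sg s = -1 := by
  unfold sg; split_ifs <;> simp

lemma sg_mul_self (s : ℝ) : sg s * s = |s| := by
  unfold sg
  split_ifs with h
  · rw [abs_of_nonneg h, one_mul]
  · rw [abs_of_neg (not_le.1 h)]; ring

lemma abs_sg (s : ℝ) : |sg s| = 1 := by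
  rcases sg_cases s with h | h <;> simp [h]

lemma measurable_sg : Measurable sg :=
  Measurable.ite measurableSet_Ici measurable_const measurable_const

lemma integrable_bdd_mul {α : Type*} [MeasurableSpace α] {μ : Measure α} {g h : α → ℝ}
    (hh : Integrable h μ) (hg : AEStronglyMeasurable g μ) (C : ℝ) (hC : ∀ x, |g x| ≤ C) :
    Integrable (fun x => g x * h x) μ := by
  refine (hh.norm.const_mul C).mono' (hg.mul hh.aestronglyMeasurable) ?_
  filter_upwards with x
  rw [norm_mul]
  exact mul_le_mul_of_nonneg_right (hC x) (norm_nonneg _)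

lemma Coer.integral_sign (hf : Coer f) :
    ∫ s, sg s * (deriv f s * Real.exp (-f s)) = 2 * Real.exp (-f 0) := by
  have hI := hf.integrable_deriv
  have hs : Integrable (fun s => sg s * (deriv f s * Real.exp (-f s))) :=
    integrable_bdd_mul hI measurable_sg.aestronglyMeasurable 1 fun s => (abs_sg s).le
  rw [← intervalIntegral.integral_Iic_add_Ioi (b := (0:ℝ)) hs.integrableOn hs.integrableOn]
  have h1 : ∫ s in Ioi (0:ℝ), sg s * (deriv f s * Real.exp (-f s)) =
      ∫ s in Ioi (0:ℝ), deriv f s * Real.exp (-f s) :=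
    setIntegral_congr_fun measurableSet_Ioi fun s hs => by
      simp [sg, (show 0 < s from hs).le]
  have h2 : ∫ s in Iic (0:ℝ), sg s * (deriv f s * Real.exp (-f s)) =
      ∫ s in Iic (0:ℝ), -(deriv f s * Real.exp (-f s)) := by
    rw [integral_Iic_eq_integral_Iio, integral_Iic_eq_integral_Iio]
    exact setIntegral_congr_fun measurableSet_Iio fun s hs => by
      simp [sg, not_le.2 (show s < 0 from hs)]
  rw [h1, h2, integral_neg, hf.integral_Iic, hf.integral_Ioi]
  ring

end Pool.Agent.H707R2.Mahler
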